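import Pool.Agent.Lib.MP_8a71fe_gt.Conn

open scoped Manifold ContDiff
open Pool.Agent.Lib.MP_8a71fe_gt

namespace Pool.Agent.Results.MP_8a71fe_gt.ConnectedFix

/-- There is a closed connected real contact manifold modelled on `V` whose involution has a
(nonempty) connected fixed point set, with exactly `k` geometrically distinct symmetric periodic
Reeb orbits. -/
def ExistsConnectedFix (V : Type) [NormedAddCommGroup V] [NormedSpace ℝ V] (k : ℕ∞) : Prop :=
  ∃ (M : Type) (_ : TopologicalSpace M) (_ : ChartedSpace V M) (_ : IsManifold 𝓘(ℝ, V) ∞ M)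
    (_ : T2Space M) (_ : CompactSpace M) (_ : ConnectedSpace M)
    (α : OneForm V M) (R : (x : M) → TangentSpace 𝓘(ℝ, V) x) (ρ : M → M),
    IsContactForm α ∧ IsReebField α R ∧ IsAntiContactInvolution α ρ ∧
      IsConnected {x | ρ x = x} ∧ (symmetricOrbits R ρ).encard = k

/-- For every `n ≥ 5` there is a closed connected real contact manifold of dimension `2 n - 1`
with connected fixed point set and exactly four geometrically distinct symmetric periodic Reeb
orbits. -/
theorem result : ∀ n : ℕ, 5 ≤ n →
    ExistsConnectedFix (EuclideanSpace ℝ (Fin (2 * n - 1))) 4 := by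
  intro n hn
  have h4 : {j : Fin 4 ⊕ Fin (n - 3) | Sum.map ![1, 0, 3, 2] id j ≠ j}.encard = 4 := by
    have : {j : Fin 4 ⊕ Fin (n - 3) | Sum.map ![1, 0, 3, 2] id j ≠ j} =
        Sum.inl '' Set.univ := by
      ext j
      rcases j with j | j
      · fin_cases j <;> simp
      · simp
    rw [this, Sum.inl_injective.injOn.encard_image]
    simp
  rw [← h4]
  refine exists_connected_fix (ι := Fin 4 ⊕ Fin (n - 3)) (s := Sum.map ![1, 0, 3, 2] id)
    (β := Sum.elim ![1, -1, 2, -2] fun _ => 0) ?_ ?_ ?_ ?_ (p := Sum.inl 0) (r := Sum.inl 2)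
    (by simp) (by simp) (by simp) (by simp) (2 * n - 1)
    (by simp only [Fintype.card_sum, Fintype.card_fin]; omega)
  · rintro (j | j)
    · fin_cases j <;> simp
    · simp
  · rintro (j | j)
    · fin_cases j <;> simp
    · simp
  · rintro (j | j)
    · fin_cases j <;> simp
    · simp
  · rintro (i | i) (j | j)
    · fin_cases i <;> fin_cases j <;> simp
    · simp
    · fin_cases j <;> simp
    · simp

end Pool.Agent.Results.MP_8a71fe_gt.ConnectedFix
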