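import Pool.Agent.Lib.MP_8a71fe_gt.ND.Main

open Pool.Agent.Lib.MP_8a71fe_gt.ND

namespace Pool.Agent.Results.MP_8a71fe_gt.Nondegenerate

/-- For every odd `n ≥ 3` there is a closed connected real contact manifold of dimension
`2 n - 1`, with connected fixed point set if `n ≥ 5`, all of whose closed Reeb orbits and Reeb
chords are non-degenerate, with exactly `n - 1` geometrically distinct symmetric periodic Reeb
orbits. -/
theorem result : ∀ n : ℕ, 3 ≤ n → Odd n →
    ExistsNondegenerate (EuclideanSpace ℝ (Fin (2 * n - 1))) (n - 1) := by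
  rintro n hn ⟨q, rfl⟩
  exact exists_odd q (by omega) (2 * (2 * q + 1) - 1) (by omega)

end Pool.Agent.Results.MP_8a71fe_gt.Nondegenerate
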