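import Pool.Agent.Lib.MP_8a71fe_gt.Main

open Pool.Agent.Lib.MP_8a71fe_gt

namespace Pool.Agent.Results.MP_8a71fe_gt.TwoOrbits

/-- For every `n ≥ 3` there is a closed connected real contact manifold of dimension `2 n - 1`
with exactly two geometrically distinct symmetric periodic Reeb orbits. -/
theorem result : ∀ n : ℕ, 3 ≤ n →
    ExistsRealContact (EuclideanSpace ℝ (Fin (2 * n - 1))) 2 := by
  intro n hn
  exact exists_two_orbits (ι := Fin (n + 1)) (p := ⟨0, by omega⟩) (q := ⟨1, by omega⟩)
    (r := ⟨2, by omega⟩) (by simp) (by simp) (by simp) (2 * n - 1)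
    (by simp only [Fintype.card_fin]; omega)

end Pool.Agent.Results.MP_8a71fe_gt.TwoOrbits
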